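import Pool.Agent.Results.MP_b58c63_nt.RoughSummandShortPrime
import Pool.Agent.Q138.PS.TW

/-!
# Goldbach with a short prime and a rough summand for the even numbers `⌊α P(n)⌋`

Let `q ≥ 2`. Outside a set of real numbers of Hausdorff dimension at most `q / (q + 1 / (q 2 ^ (q - 1)))` (that is
`8 / 9` for `q = 2`) every `α > 0` has the following property for each `0 < u < 3 / 8`. For ALL integral polynomials `P` of
degree `q` with positive leading coefficient and coefficients of size at most `N ^ η`, and for all but at most `N ^ (1 - η)`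
of the `n ≤ N`: if `M = ⌊α P(n)⌋` is even, there are at least `δ 𝔖(M) √M / (log M) ^ 2` primes `p` with
`√M < p < 4 √M` such that all prime factors of `M - p` are larger than `M ^ u`. For `u = 1 / 3` the number `M - p` is a prime
or a product of two primes.
-/

set_option autoImplicit false

namespace Pool.Agent.Results.MP_b58c63_nt.AlongRealMultiples

open Finset Filter Topology
open Pool.Agent.Q138.PS
open Pool.Agent.Results.MP_b58c63_nt.RoughSummandShortPrime (sing shortCount)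

/-- `M` has at least `δ 𝔖(M) √M / (log M) ^ 2` primes `p` with `√M < p < 4 √M` such that all prime factors of `M - p ≥ 2`
are larger than `M ^ u` -/
def Good (u δ : ℝ) (M : ℕ) : Prop :=
  δ * sing M * (Real.sqrt M / Real.log M ^ 2) ≤ (shortCount u M : ℝ)

open Classical in
/-- the number of the `1 ≤ n ≤ N` for which `M = ⌊α P(n)⌋` is even and not `Good u δ` -/
noncomputable def exceptions (u δ α : ℝ) (P : Polynomial ℤ) (N : ℕ) : ℕ :=
  ((Icc 1 N).filter fun n : ℕ => Even ⌊α * ((P.eval (n : ℤ) : ℤ) : ℝ)⌋₊ ∧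
    ¬ Good u δ ⌊α * ((P.eval (n : ℤ) : ℤ) : ℝ)⌋₊).card

/-- the exceptional numbers -/
def bad (u δ : ℝ) (M : ℕ) : Prop := Even M ∧ ¬ Good u δ M

theorem seed (u : ℝ) (hu : 0 < u) (hu2 : u < 3 / 8) : ∃ κ δ C : ℝ, 0 < κ ∧ κ ≤ 1 ∧ 0 < δ ∧ 0 < C ∧ ∀ X : ℕ, 1 ≤ X →
    cn (bad u δ) X ≤ C * (X : ℝ) ^ (1 - κ) := by
  classical
  set m : ℝ := max (1 / 2) (4 * u - 1 / 2) with hm
  have hm1 : m < 1 := max_lt (by norm_num) (by linarith)
  have hm2 : 1 / 2 ≤ m := le_max_left _ _
  obtain ⟨δ, C, hδ, hC, h⟩ := RoughSummandShortPrime.result u ((1 - m) / 2) hu hu2 (by linarith)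
  refine ⟨(1 - m) / 2, δ, C, by linarith, by linarith, hδ, hC, fun X hX => ?_⟩
  have g := h X hX
  have e : (1 : ℝ) - (1 - m) / 2 = m + (1 - m) / 2 := by ring
  rw [e]
  refine le_trans ?_ g
  unfold cn
  norm_cast
  refine card_le_card ?_
  intro M hM
  rw [mem_filter] at hM ⊢
  exact ⟨hM.1, hM.2.1, not_le.1 hM.2.2⟩

/-- the countable set of exponents -/
noncomputable def ex (i : ℕ) : ℝ := 3 / 8 - 1 / (3 * ((i : ℝ) + 1))

theorem ex_pos (i : ℕ) : 0 < ex i := by
  unfold ex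
  have h1 : (1 : ℝ) ≤ (i : ℝ) + 1 := by
    have : (0 : ℝ) ≤ i := Nat.cast_nonneg i
    linarith
  have h2 : 1 / (3 * ((i : ℝ) + 1)) ≤ 1 / 3 := by
    apply one_div_le_one_div_of_le (by norm_num)
    linarith
  linarith

theorem ex_lt (i : ℕ) : ex i < 3 / 8 := by
  unfold ex
  have : 0 < 1 / (3 * ((i : ℝ) + 1)) := by positivity
  linarith

theorem short_anti {u v : ℝ} (huv : u ≤ v) (M : ℕ) : shortCount v M ≤ shortCount u M := by
  classical
  unfold shortCount
  refine card_le_card ?_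
  intro p hp
  rw [mem_filter, mem_range] at hp ⊢
  obtain ⟨h0, h1, h2, h3, h4, h5⟩ := hp
  refine ⟨h0, h1, h2, h3, h4, fun q hq hd => lt_of_le_of_lt ?_ (h5 q hq hd)⟩
  exact Real.rpow_le_rpow_of_exponent_le (by exact_mod_cast (by omega : 1 ≤ M)) huv

/-- **Theorem.** For each `q ≥ 2` there is a set `E` of Hausdorff dimension at most `q / (q + 1 / (q 2 ^ (q - 1)))` such
that for each `α > 0` outside `E` and each `0 < u < 3 / 8` there are `δ > 0` and `η > 0` with the following property: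
for all large `N` and ALL `P ∈ ℤ[X]` of degree `q` with positive leading coefficient and coefficients of size at most
`N ^ η`, for all but at most `N ^ (1 - η)` of the `n ≤ N` the number `M = ⌊α P(n)⌋` is odd or `Good u δ`. -/
theorem result (q : ℕ) (hq : 2 ≤ q) :
    ∃ E : Set ℝ, dimH E ≤ ENNReal.ofReal (q / (q + 1 / ((q : ℝ) * 2 ^ (q - 1)))) ∧ ∀ α : ℝ, 0 < α → α ∉ E →
      ∀ u : ℝ, 0 < u → u < 3 / 8 → ∃ δ η : ℝ, 0 < δ ∧ 0 < η ∧ ∀ᶠ N : ℕ in atTop, ∀ P : Polynomial ℤ,
        P.natDegree = q → 0 < P.leadingCoeff → (∀ j, |((P.coeff j : ℤ) : ℝ)| ≤ (N : ℝ) ^ η) →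
        (exceptions u δ α P N : ℝ) ≤ (N : ℝ) ^ (1 - η) := by
  classical
  have hs := fun i : ℕ => seed (ex i) (ex_pos i) (ex_lt i)
  choose κ δ C hκ hκ1 hδ hC h0 using hs
  obtain ⟨E, hE, h⟩ := exc_nat q hq (fun i : ℕ => bad (ex i) (δ i))
  refine ⟨E, hE, fun α hα hαE u hu hu2 => ?_⟩
  obtain ⟨i, hi⟩ := exists_nat_one_div_lt (show 0 < 3 / 8 - u by linarith)
  have hui : u ≤ ex i := by
    unfold ex
    have h1 : 1 / (3 * ((i : ℝ) + 1)) ≤ 1 / ((i : ℝ) + 1) := by
      apply one_div_le_one_div_of_le (by positivity)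
      have : (0 : ℝ) ≤ i := Nat.cast_nonneg i
      linarith
    linarith
  obtain ⟨η, hη, hη4, -, h1⟩ := h α hα hαE i
  refine ⟨δ i, min (κ i / 4) (η / 2), hδ i, by have := hκ i; positivity, ?_⟩
  have h3 := h1 (κ i) (C i) (hκ i) (hκ1 i) (fun Y hY => h0 i Y (by omega))
  filter_upwards [h3, eventually_ge_atTop 1] with N hN hN1 P hdeg hlead hco
  have hN1r : (1 : ℝ) ≤ N := by exact_mod_cast hN1
  have h4 := hN P hdeg hlead (fun j => (hco j).trans (Real.rpow_le_rpow_of_exponent_le hN1r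
    ((min_le_right _ _).trans (by linarith))))
  have h5 : (exceptions u (δ i) α P N : ℝ) ≤ cnP (bad (ex i) (δ i)) α P N := by
    unfold exceptions cnP cn
    norm_cast
    refine card_le_card ?_
    intro n hn
    rw [mem_filter] at hn ⊢
    refine ⟨hn.1, hn.2.1, fun hg => hn.2.2 ?_⟩
    unfold Good at hg ⊢
    exact hg.trans (by exact_mod_cast short_anti hui _)
  exact h5.trans h4

end Pool.Agent.Results.MP_b58c63_nt.AlongRealMultiples
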