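import Pool.Agent.Q253.Thin.QAP
import Pool.Agent.Q253.Thin.GoldSample

/-!
# Every even `N`: Chen primes `p` in `(√N, 4 √N)` with `N - p` almost prime

For EVERY large even `N` (no exceptions) there are the expected number of Chen primes `p` with `√N < p < 4 √N` such that
`N - p` is an almost prime, and every dense subset of this set contains arithmetic progressions with differences
`≤ log ^ D N`.

Libraries: `Y840.CT.GenF` (Chen's theorem for systems of shifts), `Y843.HS.Top` (Szemerédi's theorem relative to sifted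
sets), all starting files.
-/

set_option autoImplicit false

namespace Pool.Agent.Results.MP_b58c63_nt.ChenPrimesEveryEvenNumber

open Finset Filter
open Pool.Agent.Y840.CT Pool.Agent.Q253.Thin

/-- the sign `s` fits to `N`: `s = 2` or `s = -2`, and `3` divides `N` or `N + s` -/
def Fit (N s : ℤ) : Prop := (s = 2 ∨ s = -2) ∧ ((3 : ℤ) ∣ N ∨ (3 : ℤ) ∣ N + s)

theorem fit_exists (N : ℤ) : ∃ s : ℤ, Fit N s := by
  have h3 : N % 3 = 0 ∨ N % 3 = 1 ∨ N % 3 = 2 := by omega
  rcases h3 with h | h | h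
  · exact ⟨2, Or.inl rfl, Or.inl (by omega)⟩
  · exact ⟨2, Or.inl rfl, Or.inr (by omega)⟩
  · exact ⟨-2, Or.inr rfl, Or.inr (by omega)⟩

/-- `m` has no prime factor `≤ z` -/
def Free (z : ℝ) (m : ℤ) : Prop := ∀ q : ℕ, q.Prime → (q : ℤ) ∣ m → z < q

/-- `n` is a prime or a product of two primes, and all its prime factors are larger than `z` -/
def AlmostPrime (z : ℝ) (n : ℕ) : Prop :=
  (n.Prime ∨ ∃ a b : ℕ, a.Prime ∧ b.Prime ∧ n = a * b) ∧ ∀ q : ℕ, q.Prime → q ∣ n → z < q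

/-- the largest integer `≤ 4 √N` -/
def top (N : ℕ) : ℕ := Nat.sqrt (16 * N)

open Classical in
/-- the primes `p` with `√N < p < 4 √N` such that `p (p + s) (N - p)` has no prime factor `≤ ⌊4 √N⌋ ^ (1/K)` -/
noncomputable def Win (K N : ℕ) (s : ℤ) : Finset ℕ :=
  (range (4 * N)).filter (fun p => p.Prime ∧ Real.sqrt N < p ∧ (p : ℝ) < 4 * Real.sqrt N ∧
    Free ((top N : ℝ) ^ (1 / (K : ℝ))) (p * (p + s) * (N - p)))

open Classical in
/-- the primes of `Win` such that `p + s` is a prime or a product of two primes `> ⌊4 √N⌋ ^ (1/9)` -/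
noncomputable def Chen (K N : ℕ) (s : ℤ) : Finset ℕ :=
  (Win K N s).filter (fun p => AlmostPrime ((top N : ℝ) ^ (1 / 9 : ℝ)) ((p : ℤ) + s).natAbs)

lemma rho_lt {N : ℕ} (hN : Even N) {s : ℤ} (hf : Fit N s) {q : ℕ} (hq : q.Prime) : rho {-s, (N : ℤ)} q < q := by
  obtain ⟨h1, h2⟩ := hf
  have hNe : (2 : ℤ) ∣ N := by exact_mod_cast hN.two_dvd
  have hcard : rho {-s, (N : ℤ)} q ≤ 3 := by
    unfold rho
    refine card_image_le.trans ((card_insert_le _ _).trans ?_)
    have : ({-s, (N : ℤ)} : Finset ℤ).card ≤ 2 := card_le_two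
    omega
  rcases Nat.lt_or_ge q 4 with h5 | h5
  · interval_cases q
    · exact absurd hq Nat.not_prime_zero
    · exact absurd hq Nat.not_prime_one
    · have : (insert 0 ({-s, (N : ℤ)} : Finset ℤ)).image (fun h : ℤ => h % ((2 : ℕ) : ℤ)) ⊆ {0} := by
        intro z hz
        rw [mem_image] at hz
        obtain ⟨h, hh, rfl⟩ := hz
        simp only [mem_insert, mem_singleton] at hh
        rw [mem_singleton]
        push_cast
        rcases h1 with rfl | rfl <;> rcases hh with rfl | rfl | rfl <;> omega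
      have := card_le_card this
      unfold rho
      rw [card_singleton] at this
      omega
    · have : (insert 0 ({-s, (N : ℤ)} : Finset ℤ)).image (fun h : ℤ => h % ((3 : ℕ) : ℤ)) ⊆ {0, (-s) % 3} := by
        intro z hz
        rw [mem_image] at hz
        obtain ⟨h, hh, rfl⟩ := hz
        simp only [mem_insert, mem_singleton] at hh
        rw [mem_insert, mem_singleton]
        push_cast
        rcases h1 with rfl | rfl <;> rcases hh with rfl | rfl | rfl <;> omega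
      have h6 := card_le_card this
      have h7 : ({0, (-s) % 3} : Finset ℤ).card ≤ 2 := card_le_two
      unfold rho
      omega
  · omega

lemma sys {N X : ℕ} (hN : Even N) (hX : 2 ≤ X) {s : ℤ} (hf : Fit N s) : SysF 2 X (fun _ => {-s, (N : ℤ)}) (-s) where
  card q _ := card_le_two
  ne := by
    rcases hf.1 with rfl | rfl <;> norm_num
  size := by
    rcases hf.1 with rfl | rfl <;> norm_num <;> exact hX
  mem q _ := by simp
  loc q hq := rho_lt hN hf hq

/-- the window in terms of the good primes of the sieve -/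
lemma mem_win {K N : ℕ} (hN : 4 ≤ N) {s : ℤ} (p : ℕ) : p ∈ Win K N s ↔
    (Nat.sqrt N < p ∧ p ≤ top N) ∧ p.Prime ∧ ((top N : ℕ) : ℝ) ^ (1 / (K : ℝ)) < p ∧
      ∀ q : ℕ, q.Prime → (q : ℝ) ≤ ((top N : ℕ) : ℝ) ^ (1 / (K : ℝ)) → ∀ h ∈ ({-s, (N : ℤ)} : Finset ℤ), ¬ (q : ℤ) ∣ h - p := by
  classical
  have hm : p ∈ Win K N s ↔ p ∈ range (4 * N) ∧ (p.Prime ∧ Real.sqrt N < p ∧ (p : ℝ) < 4 * Real.sqrt N ∧
    Free ((top N : ℝ) ^ (1 / (K : ℝ))) (p * (p + s) * (N - p))) := by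
    unfold Win
    rw [mem_filter]
  rw [hm, mem_range]
  have hN0 : (0 : ℝ) < N := by exact_mod_cast (by omega : 0 < N)
  have hfree : ∀ {p : ℕ}, p.Prime → (Free ((top N : ℝ) ^ (1 / (K : ℝ))) (p * (p + s) * (N - p)) ↔
      ((top N : ℕ) : ℝ) ^ (1 / (K : ℝ)) < p ∧
      ∀ q : ℕ, q.Prime → (q : ℝ) ≤ ((top N : ℕ) : ℝ) ^ (1 / (K : ℝ)) → ∀ h ∈ ({-s, (N : ℤ)} : Finset ℤ), ¬ (q : ℤ) ∣ h - p) := by
    intro p hp
    unfold Free
    constructor
    · intro h
      refine ⟨h p hp ⟨(p + s) * (N - p), by ring⟩, ?_⟩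
      intro q hq hqz h' hh' hd
      have : ((top N : ℕ) : ℝ) ^ (1 / (K : ℝ)) < q := by
        apply h q hq
        rw [mem_insert, mem_singleton] at hh'
        rcases hh' with rfl | rfl
        · have h2 : (q : ℤ) ∣ (p + s) := by
            have e : (p : ℤ) + s = -(-s - p) := by ring
            rw [e]
            exact (dvd_neg).2 hd
          exact (h2.mul_left _).mul_right _
        · exact hd.mul_left _
      linarith
    · rintro ⟨h1, h2⟩ q hq hd
      by_contra hcon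
      push Not at hcon
      have hqp : Prime (q : ℤ) := Nat.prime_iff_prime_int.1 hq
      rcases hqp.dvd_mul.1 hd with hd | hd
      · rcases hqp.dvd_mul.1 hd with hd | hd
        · have h3 : q ∣ p := by exact_mod_cast hd
          have h4 := (Nat.prime_dvd_prime_iff_eq hq hp).1 h3
          rw [h4] at hcon
          linarith
        · apply h2 q hq hcon (-s) (by simp)
          have : (-s : ℤ) - p = -((p : ℤ) + s) := by ring
          rw [this]
          exact (dvd_neg).2 hd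
      · exact h2 q hq hcon N (by simp) hd
  have hs1 : ∀ {p : ℕ}, p.Prime → (Nat.sqrt N < p ↔ Real.sqrt N < p) := by
    intro p hp
    rw [Nat.sqrt_lt, Real.sqrt_lt' (by exact_mod_cast hp.pos)]
    constructor
    · intro h
      have : ((N : ℕ) : ℝ) < ((p * p : ℕ) : ℝ) := by exact_mod_cast h
      push_cast at this
      nlinarith
    · intro h
      have : ((N : ℕ) : ℝ) < ((p * p : ℕ) : ℝ) := by
        push_cast
        nlinarith
      exact_mod_cast this
  have hs2 : ∀ {p : ℕ}, p.Prime → (p ≤ top N ↔ (p : ℝ) < 4 * Real.sqrt N) := by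
    intro p hp
    unfold top
    rw [Nat.le_sqrt]
    have e : 4 * Real.sqrt N = Real.sqrt (16 * N) := by
      rw [Real.sqrt_mul (by norm_num), show (16 : ℝ) = 4 ^ 2 by norm_num, Real.sqrt_sq (by norm_num)]
    rw [e, Real.lt_sqrt (by positivity)]
    constructor
    · intro h
      rcases h.lt_or_eq with h1 | h1
      · have : ((p * p : ℕ) : ℝ) < ((16 * N : ℕ) : ℝ) := by exact_mod_cast h1
        push_cast at this
        nlinarith
      · exfalso
        have h2 : 2 ∣ p * p := by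
          rw [h1]
          exact ⟨8 * N, by ring⟩
        have h3 : 2 ∣ p := by
          rcases (Nat.prime_two.dvd_mul).1 h2 with h | h <;> exact h
        have h4 := (Nat.prime_dvd_prime_iff_eq Nat.prime_two hp).1 h3
        rw [← h4] at h1
        omega
    · intro h
      have : ((p * p : ℕ) : ℝ) < ((16 * N : ℕ) : ℝ) := by
        push_cast
        nlinarith
      have h2 : p * p < 16 * N := by exact_mod_cast this
      exact h2.le
  constructor
  · rintro ⟨_, h2, h3, h4, h5⟩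
    have h6 := (hfree h2).1 h5
    exact ⟨⟨(hs1 h2).2 h3, (hs2 h2).2 h4⟩, h2, h6.1, h6.2⟩
  · rintro ⟨⟨h1, h2⟩, h3, h4, h5⟩
    refine ⟨?_, h3, (hs1 h3).1 h1, (hs2 h3).1 h2, (hfree h3).2 ⟨h4, h5⟩⟩
    unfold top at h2
    rw [Nat.le_sqrt] at h2
    by_contra hcon
    push Not at hcon
    have : 4 * N * (4 * N) ≤ p * p := Nat.mul_le_mul hcon hcon
    nlinarith

lemma chen_eq {K N : ℕ} (hN : 16 ≤ N) {s : ℤ} (hs : s = 2 ∨ s = -2) :
    Chen K N s = GoodF K (top N) (Nat.sqrt N) (top N) (fun _ => {-s, (N : ℤ)}) (-s) := by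
  classical
  ext p
  have h1 : p ∈ Chen K N s ↔ p ∈ Win K N s ∧ AlmostPrime ((top N : ℝ) ^ (1 / 9 : ℝ)) ((p : ℤ) + s).natAbs := by
    unfold Chen
    rw [mem_filter]
  have h2 : p ∈ GoodF K (top N) (Nat.sqrt N) (top N) (fun _ => {-s, (N : ℤ)}) (-s) ↔
      (Nat.sqrt N < p ∧ p ≤ top N) ∧ p.Prime ∧ ((top N : ℕ) : ℝ) ^ (1 / (K : ℝ)) < p ∧
      Rough 2 (((top N : ℕ) : ℝ) ^ (1 / 9 : ℝ)) (-s - p) ∧
      ∀ q : ℕ, q.Prime → (q : ℝ) ≤ ((top N : ℕ) : ℝ) ^ (1 / (K : ℝ)) → ∀ h ∈ ({-s, (N : ℤ)} : Finset ℤ), ¬ (q : ℤ) ∣ h - p := by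
    unfold GoodF
    rw [mem_filter, mem_Ioc]
  rw [h1, h2, mem_win (by omega)]
  have hsq : 4 ≤ Nat.sqrt N := by
    rw [Nat.le_sqrt]
    omega
  have key : ∀ p : ℕ, Nat.sqrt N < p → (AlmostPrime ((top N : ℝ) ^ (1 / 9 : ℝ)) ((p : ℤ) + s).natAbs ↔
      Rough 2 (((top N : ℕ) : ℝ) ^ (1 / 9 : ℝ)) (-s - p)) := by
    intro p hp
    have e : (-s - (p : ℤ)).natAbs = ((p : ℤ) + s).natAbs := by
      rw [← Int.natAbs_neg]
      congr 1
      ring
    have hn : 1 < ((p : ℤ) + s).natAbs := by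
      rcases hs with rfl | rfl <;> omega
    have h3 := P2_iff hn ((top N : ℝ) ^ (1 / 9 : ℝ))
    have h4 : AlmostPrime ((top N : ℝ) ^ (1 / 9 : ℝ)) ((p : ℤ) + s).natAbs ↔
      P2 ((top N : ℝ) ^ (1 / 9 : ℝ)) ((p : ℤ) + s).natAbs := Iff.rfl
    rw [h4, h3]
    unfold Rough
    rw [e]
    constructor
    · rintro ⟨a1, a2⟩
      refine ⟨by omega, a1, fun q hq hd => a2 q hq ?_⟩
      rw [← e, ← Int.natCast_dvd]
      exact hd
    · rintro ⟨_, a1, a2⟩
      refine ⟨a1, fun q hq hd => a2 q hq ?_⟩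
      rw [Int.natCast_dvd, e]
      exact hd
  constructor
  · rintro ⟨⟨a1, a2, a3, a4⟩, a5⟩
    exact ⟨a1, a2, a3, (key p a1.1).1 a5, a4⟩
  · rintro ⟨a1, a2, a3, a4, a5⟩
    exact ⟨⟨a1, a2, a3, a5⟩, (key p a1.1).2 a4⟩

/-- **Every even number.** There are `K` and `c > 0` such that for all `k` and `δ > 0` there are `D`, `N₀` such that
for EVERY even `N ≥ N₀` and every `s ∈ {2, -2}` which fits to `N` modulo `3` (there is one for every `N`):

(1) `Chen K N s` has at least `c √N / log ^ 3 N` elements;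

(2) every subset of `Chen K N s` of relative density `δ` contains an arithmetic progression of length `k` with
difference at most `log ^ D N`. -/
theorem result : (∀ N : ℤ, ∃ s : ℤ, Fit N s) ∧
    ∃ (K : ℕ) (c : ℝ), 1 ≤ K ∧ 0 < c ∧ ∀ (k : ℕ) (δ : ℝ), 0 < δ → ∃ D N₀ : ℕ, ∀ N : ℕ, N₀ ≤ N → Even N →
      ∀ s : ℤ, Fit N s →
      c * (Real.sqrt N / Real.log N ^ 3) ≤ (Chen K N s).card ∧
      ∀ S : Finset ℕ, S ⊆ Chen K N s → δ * ((Chen K N s).card : ℝ) ≤ S.card →
        ∃ a d : ℕ, 1 ≤ d ∧ (d : ℝ) ≤ Real.log N ^ D ∧ ∀ j < k, a + j * d ∈ S := by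
  classical
  refine ⟨fit_exists, ?_⟩
  obtain ⟨K, hK, c0, hc0, hgen, hrel⟩ := genF 2
  obtain ⟨cV, hcV, hVlow⟩ := VF_low 2
  refine ⟨K, c0 * cV, hK, by positivity, ?_⟩
  intro k δ hδ
  obtain ⟨X₁, hX₁⟩ := hgen (1 / 2) (by norm_num)
  obtain ⟨D₂, X₂, hX₂⟩ := hrel k (1 / 2) δ (by norm_num) hδ
  refine ⟨D₂, max (X₁ ^ 2) (max (X₂ ^ 2) 16), ?_⟩
  intro N hN hNe s hf
  have n1 : X₁ ^ 2 ≤ N := (le_max_left _ _).trans hN
  have n2 : X₂ ^ 2 ≤ N := (le_max_left _ _).trans ((le_max_right _ _).trans hN)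
  have n4 : 16 ≤ N := (le_max_right _ _).trans ((le_max_right _ _).trans hN)
  have htop : ∀ a : ℕ, a ^ 2 ≤ N → a ≤ top N := by
    intro a ha
    unfold top
    rw [Nat.le_sqrt]
    nlinarith
  have hNr : (16 : ℝ) ≤ N := by exact_mod_cast n4
  have hN0 : (0 : ℝ) < N := by linarith
  have ht8 : 8 ≤ top N := by
    unfold top
    rw [Nat.le_sqrt]
    omega
  have htN : top N ≤ N := by
    have h1 : top N * top N ≤ 16 * N := Nat.sqrt_le _
    by_contra hcon
    push Not at hcon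
    nlinarith
  have htr : (8 : ℝ) ≤ top N := by exact_mod_cast ht8
  have ht0 : (0 : ℝ) < top N := by linarith
  have hl : 0 < Real.log (top N) := Real.log_pos (by linarith)
  have hl1 : 1 ≤ Real.log (top N) := by
    rw [Real.le_log_iff_exp_le ht0]
    exact (Real.exp_one_lt_d9.le.trans (by norm_num)).trans htr
  have hlN : Real.log (top N) ≤ Real.log N := Real.log_le_log ht0 (by exact_mod_cast htN)
  have hlN0 : 0 < Real.log N := lt_of_lt_of_le hl hlN
  have hA : 4 * Nat.sqrt N ≤ top N := by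
    unfold top
    rw [Nat.le_sqrt]
    have := Nat.sqrt_le N
    nlinarith
  have hAr : 4 * ((Nat.sqrt N : ℕ) : ℝ) ≤ (top N : ℝ) := by exact_mod_cast hA
  have hAB : (1 / 2 : ℝ) * ((top N : ℕ) : ℝ) ≤ ((top N : ℕ) : ℝ) - (Nat.sqrt N : ℕ) := by linarith
  have hsq : Real.sqrt N ≤ ((top N : ℕ) : ℝ) - (Nat.sqrt N : ℕ) := by
    have h1 : 16 * N < (top N + 1) * (top N + 1) := Nat.lt_succ_sqrt (16 * N)
    have h2 : (16 : ℝ) * N < ((top N : ℝ) + 1) ^ 2 := by
      have : ((16 * N : ℕ) : ℝ) < (((top N + 1) * (top N + 1) : ℕ) : ℝ) := by exact_mod_cast h1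
      push_cast at this
      linarith
    have h3 : 4 * Real.sqrt N < (top N : ℝ) + 1 := by
      have e : 4 * Real.sqrt N = Real.sqrt (16 * N) := by
        rw [Real.sqrt_mul (by norm_num), show (16 : ℝ) = 4 ^ 2 by norm_num, Real.sqrt_sq (by norm_num)]
      rw [e, Real.sqrt_lt' (by linarith)]
      exact h2
    have h4 : 4 ≤ Real.sqrt N := by
      rw [Real.le_sqrt' (by norm_num)]
      linarith
    linarith
  have hsys := sys (N := N) (X := top N) hNe (by omega) hf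
  have hV : cV / Real.log N ^ 3 ≤ VF (fun _ => {-s, (N : ℤ)}) (top N) := by
    refine le_trans ?_ (hVlow (top N) (by omega) _ hsys.card hsys.loc)
    apply div_le_div_of_nonneg_left hcV.le (by positivity)
    exact pow_le_pow_left₀ hl.le hlN 3
  have hD : ∀ {d : ℕ}, (d : ℝ) ≤ Real.log (top N) ^ D₂ → (d : ℝ) ≤ Real.log N ^ D₂ :=
    fun h => h.trans (pow_le_pow_left₀ hl.le hlN _)
  have h0 : c0 * cV * (Real.sqrt N / Real.log N ^ 3) ≤
      c0 * ((((top N : ℕ) : ℝ) - (Nat.sqrt N : ℕ)) * VF (fun _ => {-s, (N : ℤ)}) (top N)) := by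
    have h1 : Real.sqrt N * (cV / Real.log N ^ 3) ≤
        (((top N : ℕ) : ℝ) - (Nat.sqrt N : ℕ)) * VF (fun _ => {-s, (N : ℤ)}) (top N) :=
      mul_le_mul hsq hV (by positivity) ((Real.sqrt_nonneg _).trans hsq)
    refine le_trans (le_of_eq ?_) (mul_le_mul_of_nonneg_left h1 hc0.le)
    ring
  refine ⟨?_, ?_⟩
  · rw [chen_eq n4 hf.1]
    have h1 := hX₁ (top N) (htop _ n1) _ _ hsys (Nat.sqrt N) (top N) le_rfl hAB
    refine h0.trans (le_trans (le_of_eq ?_) h1)
    ring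
  · intro S hS hSc
    rw [chen_eq n4 hf.1] at hS hSc
    obtain ⟨a, d, h1, h2, h3⟩ := hX₂ (top N) (htop _ n2) _ _ hsys (Nat.sqrt N) (top N) le_rfl hAB S hS hSc
    exact ⟨a, d, h1, hD h2, h3⟩

end Pool.Agent.Results.MP_b58c63_nt.ChenPrimesEveryEvenNumber
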